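import Pool.Agent.Helper40.MR.Defs

/-! # DUAL : duality -/

open Finset MeasureTheory
open scoped BigOperators Nat Topology ComplexConjugate

namespace Pool.Agent.Helper40.MR

theorem dual_nit_cont (n : ℕ) : Continuous (nit n) := by
  unfold nit
  fun_prop

theorem dual_nit_norm (n : ℕ) (t : ℝ) : ‖nit n t‖ = 1 := by
  unfold nit
  rw [show (-(((t * Real.log n : ℝ)) : ℂ) * Complex.I) = (((-(t * Real.log n) : ℝ)) : ℂ) * Complex.I by
    push_cast; ring]
  exact Complex.norm_exp_ofReal_mul_I _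

theorem dual_nit_conj (n : ℕ) (r : ℝ) : conj (nit n r) = nit n (-r) := by
  unfold nit
  rw [← Complex.exp_conj]
  congr 1
  rw [map_mul, map_neg, Complex.conj_ofReal, Complex.conj_I]
  push_cast
  ring

theorem dual_nit_sub (n : ℕ) (t r : ℝ) : nit n (t - r) = nit n t * conj (nit n r) := by
  rw [dual_nit_conj]
  unfold nit
  rw [← Complex.exp_add]
  congr 1
  push_cast
  ring

theorem st_DUAL : ST_DUAL := by
  intro s w a U T B hB hw ha hU hUT hK
  have hfin : IsFiniteMeasure (volume.restrict U) := by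
    refine ⟨?_⟩
    rw [Measure.restrict_apply_univ]
    exact lt_of_le_of_lt (measure_mono hUT) (by simp)
  set μ := volume.restrict U with hμ
  set D : ℝ → ℂ := fun t => ∑ n ∈ s, a n * nit n t with hD
  set K : ℝ → ℂ := fun u => ∑ n ∈ s, (w n : ℂ) * nit n u with hKdef
  have hDc : Continuous D := continuous_finsetSum _ fun n _ => continuous_const.mul (dual_nit_cont n)
  have hKc : Continuous K := continuous_finsetSum _ fun n _ => continuous_const.mul (dual_nit_cont n)
  -- bounds
  obtain ⟨MD, hMD⟩ : ∃ MD : ℝ, ∀ t, ‖D t‖ ≤ MD := by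
    refine ⟨∑ n ∈ s, ‖a n‖, fun t => (norm_sum_le _ _).trans (Finset.sum_le_sum fun n _ => ?_)⟩
    rw [norm_mul, dual_nit_norm, mul_one]
  obtain ⟨MK, hMK⟩ : ∃ MK : ℝ, ∀ t, ‖K t‖ ≤ MK := by
    refine ⟨∑ n ∈ s, ‖(w n : ℂ)‖, fun t => (norm_sum_le _ _).trans (Finset.sum_le_sum fun n _ => ?_)⟩
    rw [norm_mul, dual_nit_norm, mul_one]
  have intc : ∀ (g : ℝ → ℂ), Continuous g → (∃ M, ∀ t, ‖g t‖ ≤ M) → Integrable g μ := fun g hg ⟨M, hM⟩ =>
    Integrable.of_bound hg.aestronglyMeasurable M (Filter.Eventually.of_forall hM)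
  have intr : ∀ (g : ℝ → ℝ), Continuous g → (∃ M, ∀ t, ‖g t‖ ≤ M) → Integrable g μ := fun g hg ⟨M, hM⟩ =>
    Integrable.of_bound hg.aestronglyMeasurable M (Filter.Eventually.of_forall hM)
  have intr2 : ∀ (g : ℝ × ℝ → ℝ), Continuous g → (∃ M, ∀ t, ‖g t‖ ≤ M) → Integrable g (μ.prod μ) :=
    fun g hg ⟨M, hM⟩ => Integrable.of_bound hg.aestronglyMeasurable M (Filter.Eventually.of_forall hM)
  have hMD0 : 0 ≤ MD := (norm_nonneg _).trans (hMD 0)
  have hMK0 : 0 ≤ MK := (norm_nonneg _).trans (hMK 0)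
  set I : ℝ := ∫ t, ‖D t‖ ^ 2 ∂μ with hI
  have hI0 : 0 ≤ I := integral_nonneg fun t => by positivity
  set A : ℕ → ℂ := fun n => ∫ t, conj (D t) * nit n t ∂μ with hA
  have hAint : ∀ n, Integrable (fun t => conj (D t) * nit n t) μ := fun n =>
    intc _ ((Complex.continuous_conj.comp hDc).mul (dual_nit_cont n)) ⟨MD, fun t => by
      rw [norm_mul, dual_nit_norm, mul_one, RCLike.norm_conj]; exact hMD t⟩
  -- `I = ∑ a n A n`
  have hIA : (I : ℂ) = ∑ n ∈ s, a n * A n := by
    have h1 : ((∫ t, ‖D t‖ ^ 2 ∂μ : ℝ) : ℂ) = ∫ t, ((‖D t‖ ^ 2 : ℝ) : ℂ) ∂μ := integral_ofReal.symm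
    rw [hI, h1]
    have h2 : ∀ t, ((‖D t‖ ^ 2 : ℝ) : ℂ) = ∑ n ∈ s, a n * (conj (D t) * nit n t) := by
      intro t
      have h3 : ((‖D t‖ ^ 2 : ℝ) : ℂ) = conj (D t) * D t := by
        rw [mul_comm, Complex.mul_conj, Complex.normSq_eq_norm_sq]
      rw [h3]
      conv_lhs => rw [hD]
      simp only
      rw [Finset.mul_sum]
      refine Finset.sum_congr rfl fun n _ => ?_
      ring
    simp only [h2]
    rw [integral_finsetSum _ fun n _ => (hAint n).const_mul (a n)]
    refine Finset.sum_congr rfl fun n _ => ?_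
    rw [integral_const_mul]
  -- Cauchy-Schwarz
  have hCS : I ^ 2 ≤ (∑ n ∈ s, ‖a n‖ ^ 2 / w n) * ∑ n ∈ s, w n * ‖A n‖ ^ 2 := by
    have h1 : I ≤ ∑ n ∈ s, (‖a n‖ / Real.sqrt (w n)) * (Real.sqrt (w n) * ‖A n‖) := by
      have h2 : I = ‖(I : ℂ)‖ := by rw [Complex.norm_real, Real.norm_of_nonneg hI0]
      rw [h2, hIA]
      refine (norm_sum_le _ _).trans (le_of_eq (Finset.sum_congr rfl fun n hn => ?_))
      rw [norm_mul]
      by_cases h0 : w n = 0
      · rw [ha n hn h0]; simp
      · have : Real.sqrt (w n) ≠ 0 := (Real.sqrt_ne_zero (hw n hn)).2 h0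
        field_simp
    have h3 : I ^ 2 ≤ (∑ n ∈ s, (‖a n‖ / Real.sqrt (w n)) * (Real.sqrt (w n) * ‖A n‖)) ^ 2 := by gcongr
    refine h3.trans ((Finset.sum_mul_sq_le_sq_mul_sq _ _ _).trans (le_of_eq ?_))
    congr 1
    · refine Finset.sum_congr rfl fun n hn => ?_
      rw [div_pow, Real.sq_sqrt (hw n hn)]
    · refine Finset.sum_congr rfl fun n hn => ?_
      rw [mul_pow, Real.sq_sqrt (hw n hn)]
  -- dual sum
  have hdual : ∑ n ∈ s, w n * ‖A n‖ ^ 2 ≤ B * I := by
    have h1 : ((∑ n ∈ s, w n * ‖A n‖ ^ 2 : ℝ) : ℂ) = ∫ t, (∫ r, conj (D t) * D r * K (t - r) ∂μ) ∂μ := by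
      push_cast
      have h2 : ∀ n, ((w n : ℂ)) * (‖A n‖ : ℂ) ^ 2 = ∫ t, (∫ r, (w n : ℂ) * ((conj (D t) * nit n t) * (D r * conj (nit n r))) ∂μ) ∂μ := by
        intro n
        have h3 : conj (A n) = ∫ r, D r * conj (nit n r) ∂μ := by
          rw [hA]
          simp only
          rw [← integral_conj]
          refine integral_congr_ae (Filter.Eventually.of_forall fun r => ?_)
          simp
        have h4 : (‖A n‖ : ℂ) ^ 2 = A n * conj (A n) := by
          rw [Complex.mul_conj, Complex.normSq_eq_norm_sq]; push_cast; rfl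
        rw [h4, h3]
        simp only [integral_const_mul]
        rw [integral_mul_const]
      simp only [h2]
      rw [← integral_finsetSum]
      · refine integral_congr_ae (Filter.Eventually.of_forall fun t => ?_)
        beta_reduce
        rw [← integral_finsetSum]
        · refine integral_congr_ae (Filter.Eventually.of_forall fun r => ?_)
          beta_reduce
          rw [hKdef]
          simp only
          rw [Finset.mul_sum]
          refine Finset.sum_congr rfl fun n _ => ?_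
          rw [dual_nit_sub]; ring
        · intro n _
          refine ((intc _ (hDc.mul (Complex.continuous_conj.comp (dual_nit_cont n))) ⟨MD, fun r => ?_⟩).const_mul _).const_mul _
          change ‖D r * conj (nit n r)‖ ≤ MD
          rw [norm_mul, RCLike.norm_conj, dual_nit_norm, mul_one]; exact hMD r
      · intro n _
        simp only [integral_const_mul]
        exact ((hAint n).mul_const _).const_mul _
    have hg1 : Continuous fun x : ℝ × ℝ => ‖D x.1‖ ^ 2 * ‖K (x.1 - x.2)‖ :=
      ((hDc.comp continuous_fst).norm.pow 2).mul (hKc.comp (continuous_fst.sub continuous_snd)).norm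
    have hg2 : Continuous fun x : ℝ × ℝ => ‖D x.2‖ ^ 2 * ‖K (x.1 - x.2)‖ :=
      ((hDc.comp continuous_snd).norm.pow 2).mul (hKc.comp (continuous_fst.sub continuous_snd)).norm
    have hi1 : Integrable (fun x : ℝ × ℝ => ‖D x.1‖ ^ 2 * ‖K (x.1 - x.2)‖) (μ.prod μ) := by
      refine intr2 _ hg1 ⟨MD ^ 2 * MK, fun x => ?_⟩
      rw [Real.norm_of_nonneg (by positivity)]
      have := hMD x.1
      have := hMK (x.1 - x.2)
      gcongr
    have hi2 : Integrable (fun x : ℝ × ℝ => ‖D x.2‖ ^ 2 * ‖K (x.1 - x.2)‖) (μ.prod μ) := by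
      refine intr2 _ hg2 ⟨MD ^ 2 * MK, fun x => ?_⟩
      rw [Real.norm_of_nonneg (by positivity)]
      have := hMD x.2
      have := hMK (x.1 - x.2)
      gcongr
    have hone : ∫ t, (∫ r, ‖D t‖ ^ 2 * ‖K (t - r)‖ ∂μ) ∂μ ≤ B * I := by
      rw [hI, ← integral_const_mul]
      refine setIntegral_mono_on ?_ ?_ hU fun t ht => ?_
      · exact hi1.integral_prod_left
      · exact (intr _ (hDc.norm.pow 2) ⟨MD ^ 2, fun t => by
          change ‖‖D t‖ ^ 2‖ ≤ _
          rw [Real.norm_of_nonneg (by positivity)]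
          have := hMD t
          gcongr⟩).const_mul B
      · rw [integral_const_mul, mul_comm B]
        gcongr
        exact hK t ht
    have htwo : ∫ t, (∫ r, ‖D r‖ ^ 2 * ‖K (t - r)‖ ∂μ) ∂μ ≤ B * I := by
      rw [integral_integral_swap hi2]
      refine le_trans (le_of_eq ?_) hone
      refine integral_congr_ae (Filter.Eventually.of_forall fun r => ?_)
      refine integral_congr_ae (Filter.Eventually.of_forall fun t => ?_)
      beta_reduce
      congr 1
      have : K (t - r) = conj (K (r - t)) := by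
        rw [hKdef]
        simp only
        rw [map_sum]
        refine Finset.sum_congr rfl fun n _ => ?_
        rw [map_mul, Complex.conj_ofReal, dual_nit_conj, neg_sub]
      rw [this, RCLike.norm_conj]
    have h5 : (∑ n ∈ s, w n * ‖A n‖ ^ 2) = ‖((∑ n ∈ s, w n * ‖A n‖ ^ 2 : ℝ) : ℂ)‖ := by
      rw [Complex.norm_real, Real.norm_of_nonneg]
      exact Finset.sum_nonneg fun n hn => mul_nonneg (hw n hn) (by positivity)
    rw [h5, h1]
    have hg3 : Continuous fun x : ℝ × ℝ => ‖D x.1‖ * ‖D x.2‖ * ‖K (x.1 - x.2)‖ :=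
      ((hDc.comp continuous_fst).norm.mul (hDc.comp continuous_snd).norm).mul
        (hKc.comp (continuous_fst.sub continuous_snd)).norm
    have hi3 : Integrable (fun x : ℝ × ℝ => ‖D x.1‖ * ‖D x.2‖ * ‖K (x.1 - x.2)‖) (μ.prod μ) := by
      refine intr2 _ hg3 ⟨MD * MD * MK, fun x => ?_⟩
      rw [Real.norm_of_nonneg (by positivity)]
      have := hMD x.1
      have := hMD x.2
      have := hMK (x.1 - x.2)
      gcongr
    calc ‖∫ t, (∫ r, conj (D t) * D r * K (t - r) ∂μ) ∂μ‖
        ≤ ∫ t, ‖∫ r, conj (D t) * D r * K (t - r) ∂μ‖ ∂μ := norm_integral_le_integral_norm _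
      _ ≤ ∫ t, (∫ r, ‖D t‖ * ‖D r‖ * ‖K (t - r)‖ ∂μ) ∂μ := by
          refine integral_mono_of_nonneg (Filter.Eventually.of_forall fun t => norm_nonneg _)
            hi3.integral_prod_left (Filter.Eventually.of_forall fun t => ?_)
          refine (norm_integral_le_integral_norm _).trans (le_of_eq ?_)
          refine integral_congr_ae (Filter.Eventually.of_forall fun r => ?_)
          simp
      _ ≤ ∫ t, (∫ r, (1 / 2 * (‖D t‖ ^ 2 * ‖K (t - r)‖) + 1 / 2 * (‖D r‖ ^ 2 * ‖K (t - r)‖)) ∂μ) ∂μ := by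
          have hi4 : Integrable (fun x : ℝ × ℝ => 1 / 2 * (‖D x.1‖ ^ 2 * ‖K (x.1 - x.2)‖) +
            1 / 2 * (‖D x.2‖ ^ 2 * ‖K (x.1 - x.2)‖)) (μ.prod μ) := (hi1.const_mul _).add (hi2.const_mul _)
          refine integral_mono hi3.integral_prod_left hi4.integral_prod_left fun t => ?_
          have hc1 : Continuous fun r => ‖D t‖ * ‖D r‖ * ‖K (t - r)‖ :=
            (continuous_const.mul hDc.norm).mul (hKc.comp (continuous_const.sub continuous_id)).norm
          have hc2 : Continuous fun r => 1 / 2 * (‖D t‖ ^ 2 * ‖K (t - r)‖) + 1 / 2 * (‖D r‖ ^ 2 * ‖K (t - r)‖) :=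
            (continuous_const.mul (continuous_const.mul (hKc.comp (continuous_const.sub continuous_id)).norm)).add
              (continuous_const.mul ((hDc.norm.pow 2).mul (hKc.comp (continuous_const.sub continuous_id)).norm))
          refine integral_mono (intr _ hc1 ⟨MD * MD * MK, fun r => ?_⟩)
            (intr _ hc2 ⟨1 / 2 * (MD ^ 2 * MK) + 1 / 2 * (MD ^ 2 * MK), fun r => ?_⟩) fun r => ?_
          · rw [Real.norm_of_nonneg (by positivity)]
            have := hMD t
            have := hMD r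
            have := hMK (t - r)
            gcongr
          · rw [Real.norm_of_nonneg (by positivity)]
            have := hMD t
            have := hMD r
            have := hMK (t - r)
            gcongr
          · beta_reduce
            nlinarith [mul_nonneg (sq_nonneg (‖D t‖ - ‖D r‖)) (norm_nonneg (K (t - r)))]
      _ = 1 / 2 * (∫ t, (∫ r, ‖D t‖ ^ 2 * ‖K (t - r)‖ ∂μ) ∂μ) +
          1 / 2 * ∫ t, (∫ r, ‖D r‖ ^ 2 * ‖K (t - r)‖ ∂μ) ∂μ := by
          rw [← integral_const_mul, ← integral_const_mul, ← integral_add]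
          · refine integral_congr_ae (Filter.Eventually.of_forall fun t => ?_)
            beta_reduce
            rw [← integral_const_mul, ← integral_const_mul, ← integral_add]
            · refine Integrable.const_mul (intr _ (continuous_const.mul
                (hKc.comp (continuous_const.sub continuous_id)).norm) ⟨MD ^ 2 * MK, fun r => ?_⟩) _
              change ‖‖D t‖ ^ 2 * ‖K (t - r)‖‖ ≤ _
              rw [Real.norm_of_nonneg (by positivity)]
              have := hMD t
              have := hMK (t - r)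
              gcongr
            · refine Integrable.const_mul (intr _ ((hDc.norm.pow 2).mul
                (hKc.comp (continuous_const.sub continuous_id)).norm) ⟨MD ^ 2 * MK, fun r => ?_⟩) _
              change ‖‖D r‖ ^ 2 * ‖K (t - r)‖‖ ≤ _
              rw [Real.norm_of_nonneg (by positivity)]
              have := hMD r
              have := hMK (t - r)
              gcongr
          · exact hi1.integral_prod_left.const_mul _
          · exact hi2.integral_prod_left.const_mul _
      _ ≤ 1 / 2 * (B * I) + 1 / 2 * (B * I) := by gcongr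
      _ = B * I := by ring
  have hS0 : 0 ≤ ∑ n ∈ s, ‖a n‖ ^ 2 / w n :=
    Finset.sum_nonneg fun n hn => div_nonneg (by positivity) (hw n hn)
  have hfinal : I ^ 2 ≤ ((∑ n ∈ s, ‖a n‖ ^ 2 / w n) * B) * I := by
    calc I ^ 2 ≤ (∑ n ∈ s, ‖a n‖ ^ 2 / w n) * ∑ n ∈ s, w n * ‖A n‖ ^ 2 := hCS
      _ ≤ (∑ n ∈ s, ‖a n‖ ^ 2 / w n) * (B * I) := by gcongr
      _ = _ := by ring
  change I ≤ _
  rcases hI0.eq_or_lt with h0 | hpos
  · rw [← h0]; positivity
  · rw [pow_two] at hfinal
    exact le_of_mul_le_mul_right hfinal hpos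

end Pool.Agent.Helper40.MR
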