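import Pool.Agent.Helper40.MR.Defs

/-! # U : the last region -/

open Finset MeasureTheory
open scoped BigOperators Nat Topology

namespace Pool.Agent.Helper40.MR

/-! ### Generalities -/

theorem u_nit_norm (n : ℕ) (t : ℝ) : ‖nit n t‖ = 1 := by
  unfold nit
  rw [show (-(((t * Real.log n : ℝ)) : ℂ) * Complex.I) = (((-(t * Real.log n) : ℝ)) : ℂ) * Complex.I by
    push_cast; ring]
  exact Complex.norm_exp_ofReal_mul_I _

theorem u_nit_cont (n : ℕ) : Continuous (nit n) := by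
  unfold nit
  fun_prop

theorem u_DP_cont (s : Finset ℕ) (c : ℕ → ℂ) : Continuous (DP s c) := by
  unfold DP
  exact continuous_finsetSum _ fun n _ => continuous_const.mul (u_nit_cont n)

theorem u_lam_mul (m n : ℕ) : lam (m * n) = lam m * lam n := by
  unfold lam
  by_cases hm : m = 0
  · simp [hm]
  by_cases hn : n = 0
  · simp [hn]
  rw [if_neg (mul_ne_zero hm hn), if_neg hm, if_neg hn, ← pow_add,
    (Nat.perm_primeFactorsList_mul hm hn).length_eq, List.length_append]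

theorem u_lam_norm (n : ℕ) : ‖lam n‖ ≤ 1 := by
  unfold lam
  split_ifs
  · simp
  · rw [norm_pow, norm_neg, norm_one, one_pow]

theorem u_CM {q : ℕ} (χ : DirichletCharacter ℂ q) : CM (lch χ) := by
  refine ⟨?_, ?_, ?_⟩
  · simp [lch, lam]
  · intro m n
    unfold lch
    rw [u_lam_mul]
    push_cast
    rw [map_mul]
    ring
  · intro n
    unfold lch
    rw [norm_mul]
    calc ‖lam n‖ * ‖χ n‖ ≤ 1 * 1 := mul_le_mul (u_lam_norm n) (χ.norm_le_one _) (norm_nonneg _) zero_le_one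
      _ = 1 := one_mul 1

theorem u_Inv (J : ℕ) (P Q : ℕ → ℝ) (P' Q' : ℝ) (h : ∀ j ∈ range J, Q j ≤ P') :
    Inv P' Q' (fun n => ∀ j ∈ range J, Hit (P j) (Q j) n) := by
  intro p n hp hP hQ hn
  constructor
  · intro hs j hj
    obtain ⟨r, hr, h1, h2, h3⟩ := hs j hj
    rcases (Nat.Prime.dvd_mul hr).1 h3 with h4 | h4
    · exfalso
      have : r = p := (Nat.prime_dvd_prime_iff_eq hr hp).1 h4
      subst this
      have := h j hj
      linarith
    · exact ⟨r, hr, h1, h2, h4⟩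
  · intro hs j hj
    obtain ⟨r, hr, h1, h2, h3⟩ := hs j hj
    exact ⟨r, hr, h1, h2, h3.mul_left p⟩

theorem u_bco_norm (P Q : ℝ) (f : ℕ → ℂ) (s : ℕ → Prop) (hf : ∀ n, ‖f n‖ ≤ 1) (n : ℕ) :
    ‖bco P Q f s n‖ ≤ 1 := by
  unfold bco
  split_ifs
  · rw [norm_div]
    have h1 : (1 : ℝ) ≤ ‖((Om P Q n : ℂ) + 1)‖ := by
      have : ((Om P Q n : ℂ) + 1) = (((Om P Q n + 1 : ℕ)) : ℂ) := by push_cast; ring
      rw [this, Complex.norm_natCast]
      exact_mod_cast Nat.le_add_left 1 _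
    rw [div_le_one (by linarith)]
    exact (hf n).trans h1
  · simp

theorem u_sum_sq {ι : Type*} (s : Finset ι) (a : ι → ℂ) :
    ‖∑ v ∈ s, a v‖ ^ 2 ≤ s.card * ∑ v ∈ s, ‖a v‖ ^ 2 := by
  calc ‖∑ v ∈ s, a v‖ ^ 2 ≤ (∑ v ∈ s, ‖a v‖) ^ 2 := by
        gcongr
        exact norm_sum_le _ _
    _ ≤ s.card * ∑ v ∈ s, ‖a v‖ ^ 2 := sq_sum_le_card_mul_sum_sq

theorem u_DP_one (t : ℝ) : ‖DP (IocN (1 / 2) (2 * (1 / 2))) (fun _ => 1) t‖ = 1 := by
  have h : IocN (1 / 2) (2 * (1 / 2)) = {1} := by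
    unfold IocN
    have h1 : ⌊(1 / 2 : ℝ)⌋₊ = 0 := by
      rw [Nat.floor_eq_zero]; norm_num
    have h2 : ⌊(2 * (1 / 2) : ℝ)⌋₊ = 1 := by
      norm_num
    rw [h1, h2]
    rfl
  unfold DP
  rw [h, Finset.sum_singleton]
  simp [u_nit_norm]

theorem u_card_Vs (P Q H : ℝ) (hP : 1 ≤ P) (hPQ : P ≤ Q) (hH : 0 ≤ H) :
    ((Vs P Q H).card : ℝ) ≤ H * (Real.log Q - Real.log P) + 2 := by
  unfold Vs
  rw [Nat.card_Icc]
  have hl : 0 ≤ Real.log P := Real.log_nonneg hP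
  have hl2 : Real.log P ≤ Real.log Q := Real.log_le_log (by linarith) hPQ
  have h1 : ⌊H * Real.log P⌋₊ ≤ ⌊H * Real.log Q⌋₊ := Nat.floor_le_floor (by gcongr)
  rw [Nat.cast_sub (by omega)]
  push_cast
  have h2 := Nat.floor_le (show 0 ≤ H * Real.log Q from mul_nonneg hH (by linarith))
  have h3 := Nat.lt_floor_add_one (H * Real.log P)
  linarith

/-! ### Integrals -/

theorem u_int {U : Set ℝ} {T : ℝ} (hUT : U ⊆ Set.Icc (-T) T) {g : ℝ → ℝ} (hg : Continuous g) :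
    IntegrableOn g U := hg.integrableOn_Icc.mono_set hUT

theorem u_le_int {U : Set ℝ} {T : ℝ} (hT : 0 ≤ T) (hUT : U ⊆ Set.Icc (-T) T)
    {g : ℝ → ℝ} (hg : Continuous g) (hg0 : ∀ t, 0 ≤ g t) :
    ∫ t in U, g t ≤ ∫ t in (-T)..T, g t := by
  rw [intervalIntegral.integral_of_le (by linarith), ← integral_Icc_eq_integral_Ioc]
  exact setIntegral_mono_set hg.integrableOn_Icc (Filter.Eventually.of_forall hg0)
    (Filter.Eventually.of_forall hUT)

theorem u_split {U : Set ℝ} {T : ℝ} (hU : MeasurableSet U) (hUT : U ⊆ Set.Icc (-T) T)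
    {F G : ℝ → ℂ} (hF : Continuous F) (hG : Continuous G) {w d : ℝ} (hd : ∀ t ∈ U, ‖G t‖ ≤ d) :
    ∫ t in U, ‖F t * G t‖ ^ 2 ≤ w ^ 2 * (∫ t in U, ‖G t‖ ^ 2) +
      d ^ 2 * ∫ t in U ∩ {t | w < ‖F t‖}, ‖F t‖ ^ 2 := by
  have hS : MeasurableSet {t | w < ‖F t‖} := measurableSet_lt measurable_const hF.norm.measurable
  have hFG : Continuous fun t => ‖F t * G t‖ ^ 2 := ((hF.mul hG).norm).pow 2
  have hF2 : Continuous fun t => ‖F t‖ ^ 2 := hF.norm.pow 2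
  have hG2 : Continuous fun t => ‖G t‖ ^ 2 := hG.norm.pow 2
  rw [← integral_inter_add_sdiff hS (u_int hUT hFG), add_comm]
  have h1 : U ∩ {t | w < ‖F t‖} ⊆ U := Set.inter_subset_left
  have h2 : U \ {t | w < ‖F t‖} ⊆ U := Set.sdiff_subset
  refine add_le_add ?_ ?_
  · calc ∫ t in U \ {t | w < ‖F t‖}, ‖F t * G t‖ ^ 2
        ≤ ∫ t in U \ {t | w < ‖F t‖}, w ^ 2 * ‖G t‖ ^ 2 := by
          refine setIntegral_mono_on (u_int (h2.trans hUT) hFG)
            (u_int (h2.trans hUT) (continuous_const.mul hG2)) (hU.diff hS) ?_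
          intro t ht
          have h3 : ‖F t‖ ≤ w := not_lt.1 ht.2
          rw [norm_mul, mul_pow]
          gcongr
      _ ≤ ∫ t in U, w ^ 2 * ‖G t‖ ^ 2 :=
          setIntegral_mono_set (u_int hUT (continuous_const.mul hG2))
            (Filter.Eventually.of_forall fun t => by positivity) (Filter.Eventually.of_forall h2)
      _ = w ^ 2 * ∫ t in U, ‖G t‖ ^ 2 := by rw [integral_const_mul]
  · calc ∫ t in U ∩ {t | w < ‖F t‖}, ‖F t * G t‖ ^ 2
        ≤ ∫ t in U ∩ {t | w < ‖F t‖}, d ^ 2 * ‖F t‖ ^ 2 := by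
          refine setIntegral_mono_on (u_int (h1.trans hUT) hFG)
            (u_int (h1.trans hUT) (continuous_const.mul hF2)) (hU.inter hS) ?_
          intro t ht
          have h3 : ‖G t‖ ≤ d := hd t ht.1
          rw [norm_mul, mul_pow, mul_comm]
          gcongr
      _ = d ^ 2 * ∫ t in U ∩ {t | w < ‖F t‖}, ‖F t‖ ^ 2 := by rw [integral_const_mul]

theorem u_cheb {U : Set ℝ} {T : ℝ} (hT : 0 ≤ T) (hU : MeasurableSet U) (hUT : U ⊆ Set.Icc (-T) T)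
    {F : ℝ → ℂ} (hF : Continuous F) {w : ℝ} (hw : 0 ≤ w) (l : ℕ) :
    (volume (U ∩ {t | w < ‖F t‖})).toReal * w ^ (2 * l) ≤ ∫ t in (-T)..T, ‖F t‖ ^ (2 * l) := by
  have hS : MeasurableSet {t | w < ‖F t‖} := measurableSet_lt measurable_const hF.norm.measurable
  have h1 : U ∩ {t | w < ‖F t‖} ⊆ U := Set.inter_subset_left
  have hc : Continuous fun t => ‖F t‖ ^ (2 * l) := hF.norm.pow _
  refine le_trans ?_ (u_le_int hT (h1.trans hUT) hc (fun t => by positivity))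
  have h2 : (volume (U ∩ {t | w < ‖F t‖})).toReal * w ^ (2 * l)
      = ∫ _ in U ∩ {t | w < ‖F t‖}, w ^ (2 * l) := by
    rw [setIntegral_const, smul_eq_mul]; rfl
  rw [h2]
  refine setIntegral_mono_on (u_int (h1.trans hUT) continuous_const) (u_int (h1.trans hUT) hc)
    (hU.inter hS) ?_
  intro t ht
  have : w < ‖F t‖ := ht.2
  gcongr

/-- estimate for one class -/
theorem u_class {c1 C1 C2 C3 θ₁ c2 V d : ℝ} {l : ℕ} (hC1 : 0 < C1) (hC2 : 0 < C2) (hC3 : 0 < C3)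
    (hc1 : 0 < c1) (hc2 : 0 < c2) (hθ₁ : 0 < θ₁) (hV : 0 < V) (hl : 2 / θ₁ ≤ l)
    (hMOM : ∀ (P : Finset ℕ) (Y M T : ℝ) (l : ℕ) (f b : ℕ → ℂ),
      1 ≤ Y → 0 < M → 1 ≤ T → (∀ p ∈ P, p.Prime ∧ Y < p ∧ (p : ℝ) ≤ Real.exp 1 * Y) →
      (∀ n, ‖f n‖ ≤ 1) → (∀ n, ‖b n‖ ≤ 1) →
      ∫ t in (-T)..T, ‖DP P f t‖ ^ (2 * l) * ‖DP (IocN M (2 * M)) b t‖ ^ 2 ≤
        C3 * (T / (Y ^ l * M) + 1) * (Real.exp (2 * l) * ((2 * l)! : ℕ)))
    (hHM1 : ∀ (M : ℝ) (b : ℕ → ℂ) (U : Set ℝ),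
      1 ≤ M → (∀ n, ‖b n‖ ≤ 1) → MeasurableSet U → U ⊆ Set.Icc (-(M ^ 2)) (M ^ 2) →
      ∫ t in U, ‖DP (IocN M (2 * M)) b t‖ ^ 2 ≤ C1 * (1 + (volume U).toReal * M ^ (-c1)))
    (hHM2 : ∀ (Y : ℝ) (P : Finset ℕ) (f : ℕ → ℂ) (U : Set ℝ), 2 ≤ Y →
      (∀ p ∈ P, p.Prime ∧ Y < p ∧ (p : ℝ) ≤ Real.exp 1 * Y) → (∀ n, ‖f n‖ ≤ 1) →
      MeasurableSet U → U ⊆ Set.Icc (-(Y ^ (2 / θ₁))) (Y ^ (2 / θ₁)) →
      ∫ t in U, ‖DP P f t‖ ^ 2 ≤ C2 / (Real.log Y) ^ 2 + C2 * (volume U).toReal * Y ^ (-c2))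
    {Z X T x : ℝ} {U : Set ℝ} (P : Finset ℕ) (f b : ℕ → ℂ) (hf : ∀ n, ‖f n‖ ≤ 1) (hb : ∀ n, ‖b n‖ ≤ 1)
    (hZ : 0 < Z) (hZl : 3 ≤ Real.log Z) (hZ2 : 2 / θ₁ ≤ Real.log Z)
    (hXl : Z ^ (9 / 10 : ℝ) ≤ X) (hXu : X ≤ Z) (hT1 : 1 ≤ T) (hTX : T ≤ X)
    (hU : MeasurableSet U) (hUT : U ⊆ Set.Icc (-T) T) (hvol : (volume U).toReal ≤ Z ^ (c1 / 2))
    (hx1 : θ₁ / 2 * Real.log Z ≤ x) (hx2 : x ≤ 1 / 4 * Real.log Z)
    (hP : ∀ p ∈ P, p.Prime ∧ Real.exp x < p ∧ (p : ℝ) ≤ Real.exp 1 * Real.exp x)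
    (hd : ∀ t ∈ U, ‖DP (IocN (X * Real.exp (-x)) (2 * (X * Real.exp (-x)))) b t‖ ≤ d)
    (he5 : C2 * (3 * C3 * (Real.exp (2 * l) * ((2 * l)! : ℕ)) * (Real.log Z / V) ^ (2 * l)) *
      Real.exp (-(c2 * (θ₁ / 2 * Real.log Z))) ≤ C2 / (Real.log Z) ^ 2) :
    ∫ t in U, ‖DP P f t * DP (IocN (X * Real.exp (-x)) (2 * (X * Real.exp (-x)))) b t‖ ^ 2 ≤
      (2 * C1 * V ^ 2 + d ^ 2 * (4 * C2 / θ₁ ^ 2 + C2)) / (Real.log Z) ^ 2 := by
  set LZ := Real.log Z with hLZ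
  set M := X * Real.exp (-x) with hMdef
  have hLZpos : 0 < LZ := by linarith
  have hZexp : Z = Real.exp LZ := (Real.exp_log hZ).symm
  have hXpos : 0 < X := lt_of_lt_of_le (Real.rpow_pos_of_pos hZ _) hXl
  have hX9 : Real.exp (9 / 10 * LZ) ≤ X := by
    have : Z ^ (9 / 10 : ℝ) = Real.exp (9 / 10 * LZ) := by
      rw [Real.rpow_def_of_pos hZ, mul_comm]
    rwa [this] at hXl
  have hM65 : Real.exp (13 / 20 * LZ) ≤ M := by
    calc Real.exp (13 / 20 * LZ) ≤ Real.exp (9 / 10 * LZ + -x) := by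
          apply Real.exp_le_exp.2; linarith
      _ = Real.exp (9 / 10 * LZ) * Real.exp (-x) := Real.exp_add _ _
      _ ≤ M := by rw [hMdef]; gcongr
  have hMpos : 0 < M := lt_of_lt_of_le (Real.exp_pos _) hM65
  have hM1 : 1 ≤ M := le_trans (Real.one_le_exp (by positivity)) hM65
  have hTZ : T ≤ Z := hTX.trans hXu
  have hZM : Z ≤ M ^ 2 := by
    calc Z = Real.exp LZ := hZexp
      _ ≤ Real.exp (13 / 20 * LZ) ^ 2 := by
        rw [← Real.exp_nat_mul]; apply Real.exp_le_exp.2; push_cast; linarith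
      _ ≤ M ^ 2 := by gcongr
  have hUM : U ⊆ Set.Icc (-(M ^ 2)) (M ^ 2) := by
    refine hUT.trans (Set.Icc_subset_Icc ?_ ?_) <;> linarith
  have hR : ∫ t in U, ‖DP (IocN M (2 * M)) b t‖ ^ 2 ≤ 2 * C1 := by
    refine (hHM1 M b U hM1 hb hU hUM).trans ?_
    have h1 : (volume U).toReal * M ^ (-c1) ≤ 1 := by
      have h2 : M ^ (-c1) ≤ Real.exp (-(13 / 20 * c1 * LZ)) := by
        calc M ^ (-c1) ≤ (Real.exp (13 / 20 * LZ)) ^ (-c1) :=
              Real.rpow_le_rpow_of_nonpos (Real.exp_pos _) hM65 (by linarith)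
          _ = Real.exp (-(13 / 20 * c1 * LZ)) := by
            rw [← Real.exp_mul]; congr 1; ring
      have h3 : Z ^ (c1 / 2) = Real.exp (c1 / 2 * LZ) := by
        rw [Real.rpow_def_of_pos hZ, mul_comm]
      calc (volume U).toReal * M ^ (-c1) ≤ Real.exp (c1 / 2 * LZ) * Real.exp (-(13 / 20 * c1 * LZ)) := by
            rw [← h3]; gcongr
        _ = Real.exp (c1 / 2 * LZ + -(13 / 20 * c1 * LZ)) := (Real.exp_add _ _).symm
        _ ≤ 1 := by
          apply Real.exp_le_one_iff.2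
          have : 0 < c1 * LZ := by positivity
          linarith
    nlinarith
  have hx0 : 1 ≤ x := by
    have : 1 ≤ θ₁ / 2 * LZ := by
      have h1 : θ₁ / 2 * (2 / θ₁) ≤ θ₁ / 2 * LZ := by gcongr
      have h2 : θ₁ / 2 * (2 / θ₁) = 1 := by field_simp
      linarith
    linarith
  have hY2 : 2 ≤ Real.exp x := by
    have := Real.add_one_le_exp x
    linarith
  set w := V / LZ with hw
  have hwpos : 0 < w := by positivity
  have hFc := u_DP_cont P f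
  have hGc := u_DP_cont (IocN M (2 * M)) b
  set U2 := U ∩ {t | w < ‖DP P f t‖} with hU2
  have hvol2 : (volume U2).toReal ≤ 3 * C3 * (Real.exp (2 * l) * ((2 * l)! : ℕ)) * (LZ / V) ^ (2 * l) := by
    have h1 := u_cheb (by linarith : 0 ≤ T) hU hUT hFc hwpos.le l
    have h2 := hMOM P (Real.exp x) (1 / 2) T l f (fun _ => 1) (by linarith) (by norm_num) hT1 hP hf
      (fun _ => by simp)
    have h3 : (fun t => ‖DP P f t‖ ^ (2 * l) * ‖DP (IocN (1 / 2) (2 * (1 / 2))) (fun _ => 1) t‖ ^ 2)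
        = fun t => ‖DP P f t‖ ^ (2 * l) := by
      funext t
      rw [u_DP_one]; simp
    rw [h3] at h2
    have h4 : T ≤ Real.exp x ^ l := by
      calc T ≤ Z := hTZ
        _ = Real.exp LZ := hZexp
        _ ≤ Real.exp (l * x) := by
          apply Real.exp_le_exp.2
          calc LZ = 2 / θ₁ * (θ₁ / 2 * LZ) := by field_simp
            _ ≤ l * x := by gcongr
        _ = Real.exp x ^ l := by rw [← Real.exp_nat_mul]
    have h5 : T / (Real.exp x ^ l * (1 / 2)) + 1 ≤ 3 := by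
      have h6 : 0 < Real.exp x ^ l := by positivity
      have h7 : T / (Real.exp x ^ l * (1 / 2)) ≤ 2 := by
        rw [div_le_iff₀ (by positivity)]
        linarith
      linarith
    have h8 : (volume U2).toReal * w ^ (2 * l) ≤ 3 * C3 * (Real.exp (2 * l) * ((2 * l)! : ℕ)) := by
      refine (h1.trans h2).trans ?_
      have h9 : 0 ≤ Real.exp (2 * l) * ((2 * l)! : ℕ) := by positivity
      calc C3 * (T / (Real.exp x ^ l * (1 / 2)) + 1) * (Real.exp (2 * l) * ((2 * l)! : ℕ))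
          ≤ C3 * 3 * (Real.exp (2 * l) * ((2 * l)! : ℕ)) := by gcongr
        _ = _ := by ring
    have h10 : w ^ (2 * l) * (LZ / V) ^ (2 * l) = 1 := by
      rw [← mul_pow, hw]
      have : V / LZ * (LZ / V) = 1 := by field_simp
      rw [this, one_pow]
    calc (volume U2).toReal = (volume U2).toReal * (w ^ (2 * l) * (LZ / V) ^ (2 * l)) := by rw [h10, mul_one]
      _ = ((volume U2).toReal * w ^ (2 * l)) * (LZ / V) ^ (2 * l) := by ring
      _ ≤ _ := by gcongr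
  have hS : MeasurableSet {t | w < ‖DP P f t‖} := measurableSet_lt measurable_const hFc.norm.measurable
  have hQ2 : ∫ t in U2, ‖DP P f t‖ ^ 2 ≤ (4 * C2 / θ₁ ^ 2 + C2) / LZ ^ 2 := by
    have hYA : Z ≤ Real.exp x ^ (2 / θ₁) := by
      rw [← Real.exp_mul, hZexp]
      apply Real.exp_le_exp.2
      calc LZ = θ₁ / 2 * LZ * (2 / θ₁) := by field_simp
        _ ≤ x * (2 / θ₁) := by gcongr
    have hsub : U2 ⊆ Set.Icc (-(Real.exp x ^ (2 / θ₁))) (Real.exp x ^ (2 / θ₁)) := by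
      refine (Set.inter_subset_left.trans hUT).trans (Set.Icc_subset_Icc ?_ ?_) <;> linarith
    refine (hHM2 (Real.exp x) P f U2 hY2 hP hf (hU.inter hS) hsub).trans ?_
    rw [Real.log_exp, add_div]
    refine add_le_add ?_ ?_
    · have h1 : (θ₁ / 2 * LZ) ^ 2 ≤ x ^ 2 := by gcongr
      calc C2 / x ^ 2 ≤ C2 / (θ₁ / 2 * LZ) ^ 2 := by gcongr
        _ = 4 * C2 / θ₁ ^ 2 / LZ ^ 2 := by field_simp; ring
    · have h1 : Real.exp x ^ (-c2) ≤ Real.exp (-(c2 * (θ₁ / 2 * LZ))) := by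
        rw [← Real.exp_mul]
        apply Real.exp_le_exp.2
        have : c2 * (θ₁ / 2 * LZ) ≤ c2 * x := by gcongr
        linarith
      calc C2 * (volume U2).toReal * Real.exp x ^ (-c2)
          ≤ C2 * (3 * C3 * (Real.exp (2 * l) * ((2 * l)! : ℕ)) * (LZ / V) ^ (2 * l)) *
            Real.exp (-(c2 * (θ₁ / 2 * LZ))) := by gcongr
        _ ≤ C2 / LZ ^ 2 := he5
  refine (u_split hU hUT hFc hGc (w := w) hd).trans ?_
  calc w ^ 2 * (∫ t in U, ‖DP (IocN M (2 * M)) b t‖ ^ 2) + d ^ 2 * ∫ t in U2, ‖DP P f t‖ ^ 2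
      ≤ w ^ 2 * (2 * C1) + d ^ 2 * ((4 * C2 / θ₁ ^ 2 + C2) / LZ ^ 2) := by gcongr
    _ = _ := by rw [hw]; field_simp

theorem u_ev5 {c2 θ₁ K V C2 : ℝ} (l : ℕ) (hc2 : 0 < c2) (hθ₁ : 0 < θ₁) (hV : 0 < V) (hC2 : 0 < C2) (hK : 0 < K) :
    ∀ᶠ Z in Filter.atTop, C2 * (K * (Real.log Z / V) ^ (2 * l)) *
      Real.exp (-(c2 * (θ₁ / 2 * Real.log Z))) ≤ C2 / (Real.log Z) ^ 2 := by
  have hb : 0 < c2 * (θ₁ / 2) := by positivity
  have h1 := (isLittleO_pow_exp_pos_mul_atTop (2 * l + 2) hb).bound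
    (show 0 < V ^ (2 * l) / K by positivity)
  have h2 := Real.tendsto_log_atTop.eventually h1
  filter_upwards [h2, Real.tendsto_log_atTop.eventually (Filter.eventually_ge_atTop 1)] with Z h3 h4
  set x := Real.log Z
  have hx : 0 < x := by linarith
  rw [Real.norm_of_nonneg (by positivity), Real.norm_of_nonneg (by positivity)] at h3
  rw [Real.exp_neg, le_div_iff₀ (by positivity), div_pow]
  have h5 : Real.exp (c2 * (θ₁ / 2 * x)) = Real.exp (c2 * (θ₁ / 2) * x) := by congr 1; ring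
  rw [h5]
  have hE : 0 < Real.exp (c2 * (θ₁ / 2) * x) := Real.exp_pos _
  calc C2 * (K * (x ^ (2 * l) / V ^ (2 * l))) * (Real.exp (c2 * (θ₁ / 2) * x))⁻¹ * x ^ 2
      = C2 * (K / V ^ (2 * l)) * (x ^ (2 * l + 2)) * (Real.exp (c2 * (θ₁ / 2) * x))⁻¹ := by
        rw [pow_add]; ring
    _ ≤ C2 * (K / V ^ (2 * l)) * (V ^ (2 * l) / K * Real.exp (c2 * (θ₁ / 2) * x)) *
        (Real.exp (c2 * (θ₁ / 2) * x))⁻¹ := by gcongr
    _ = C2 := by field_simp

theorem st_U (hDEC : ST_DEC) (hMOM : ST_MOM) (h1 : ST_HM1) (h2 : ST_HM2) (hSUP : ST_SUP) : ST_U := by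
  obtain ⟨C0, hC0, hD⟩ := hDEC
  obtain ⟨C3, hC3, hM⟩ := hMOM
  obtain ⟨c1, hc1, C1, hC1, hHM1⟩ := h1
  refine ⟨4 * C0, by positivity, c1 / 2, by positivity, ?_⟩
  intro q χ J P Q θ₁ θ₂ h δ hq hθ₁ hθ hθ₂ hh hδ
  have hA : 1 ≤ 2 / θ₁ := by
    rw [le_div_iff₀ hθ₁]; linarith
  obtain ⟨c2, hc2, C2, hC2, hHM2⟩ := h2 (2 / θ₁) hA
  set l := ⌈2 / θ₁⌉₊ with hl
  have hl' : 2 / θ₁ ≤ l := Nat.le_ceil _
  set V := Real.sqrt (δ / (16 * C1 * h ^ 2)) with hVdef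
  have hVpos : 0 < V := Real.sqrt_pos.2 (by positivity)
  have hV2 : V ^ 2 = δ / (16 * C1 * h ^ 2) := Real.sq_sqrt (by positivity)
  set C4 := 4 * C2 / θ₁ ^ 2 + C2 with hC4
  have hC4pos : 0 < C4 := by positivity
  set d := Real.sqrt (δ / (8 * h ^ 2 * C4)) with hddef
  have hdpos : 0 < d := Real.sqrt_pos.2 (by positivity)
  have hd2 : d ^ 2 = δ / (8 * h ^ 2 * C4) := Real.sq_sqrt (by positivity)
  obtain ⟨Z1, hS⟩ := hSUP q χ J P Q θ₁ θ₂ d hq hθ₁ hθ (by linarith) hdpos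
  have hrp : ∀ r : ℝ, 0 < r → Filter.Tendsto (fun Z : ℝ => Z ^ r) Filter.atTop Filter.atTop :=
    fun r hr => tendsto_rpow_atTop hr
  have ev1 : ∀ᶠ Z : ℝ in Filter.atTop, ∀ j ∈ range J, Q j ≤ Z ^ θ₁ := by
    rw [Filter.eventually_all_finset]
    intro j _
    exact (hrp θ₁ hθ₁).eventually (Filter.eventually_ge_atTop _)
  have ev2 := (hrp θ₁ hθ₁).eventually (Filter.eventually_ge_atTop (2 + 32 * C0 / δ))
  have ev3 := (hrp (9 / 10) (by norm_num)).eventually (Filter.eventually_ge_atTop (1 + 32 * C0 / δ))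
  have ev4 := Real.tendsto_log_atTop.eventually (Filter.eventually_ge_atTop (3 + 2 / θ₁))
  have ev5 := u_ev5 (c2 := c2) (θ₁ := θ₁) (K := 3 * C3 * (Real.exp (2 * l) * ((2 * l)! : ℕ))) (V := V) (C2 := C2) l
    hc2 hθ₁ hVpos hC2 (by positivity)
  obtain ⟨Z₀, hZ₀⟩ := Filter.eventually_atTop.1 (((((ev1.and ev2).and ev3).and ev4).and ev5).and
    ((Filter.eventually_ge_atTop Z1).and (Filter.eventually_gt_atTop 1)))
  refine ⟨Z₀, ?_⟩
  intro Z X T U hZ hXl hXu hT1 hTX hU hUT hvol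
  obtain ⟨⟨⟨⟨⟨e1, e2⟩, e3⟩, e4⟩, e5⟩, e6, e7⟩ := hZ₀ Z hZ
  have hZpos : 0 < Z := by linarith
  have hθinv : 0 < 2 / θ₁ := by positivity
  have hLZ3 : 3 ≤ Real.log Z := by linarith
  have hLZθ : 2 / θ₁ ≤ Real.log Z := by linarith
  have hdd : 0 < 32 * C0 / δ := by positivity
  have hX1 : 1 ≤ X := by linarith
  have hXpos : 0 < X := by linarith
  set P' := Z ^ θ₁ with hP'
  set Q' := Z ^ θ₂ with hQ'
  have hP'2 : 2 ≤ P' := by linarith
  have hPQ : P' < Q' := Real.rpow_lt_rpow_of_exponent_lt e7 hθ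
  have hlogP : Real.log P' = θ₁ * Real.log Z := Real.log_rpow hZpos _
  have hlogQ : Real.log Q' = θ₂ * Real.log Z := Real.log_rpow hZpos _
  set s : ℕ → Prop := fun n => ∀ j ∈ range J, Hit (P j) (Q j) n with hs
  set f := lch χ with hf
  have hCM : CM f := u_CM χ
  obtain ⟨E, hEc, hEA, hEint⟩ := hD P' Q' h X f s hP'2 hPQ hh hX1 hCM (u_Inv J P Q P' Q' e1)
  have hEb := hEint T hT1
  -- classes
  have hclass : ∀ v ∈ Vs P' Q' h,
      ∫ t in U, ‖DP (Cls P' Q' h v) f t *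
        DP (IocN (X * Real.exp (-(v / h))) (2 * (X * Real.exp (-(v / h))))) (bco P' Q' f s) t‖ ^ 2 ≤
      (2 * C1 * V ^ 2 + d ^ 2 * C4) / (Real.log Z) ^ 2 := by
    intro v hv
    unfold Vs at hv
    rw [Finset.mem_Icc] at hv
    have hv1 : h * Real.log P' - 1 ≤ v := by
      have := Nat.lt_floor_add_one (h * Real.log P')
      have h3 : (⌊h * Real.log P'⌋₊ : ℝ) ≤ v := by exact_mod_cast hv.1
      linarith
    have hv2 : (v : ℝ) ≤ h * Real.log Q' := by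
      have h3 : (v : ℝ) ≤ ⌊h * Real.log Q'⌋₊ := by exact_mod_cast hv.2
      refine h3.trans (Nat.floor_le ?_)
      rw [hlogQ]
      have : 0 < θ₂ := by linarith
      positivity
    have hhpos : 0 < h := by linarith
    have hx1 : θ₁ / 2 * Real.log Z ≤ v / h := by
      rw [le_div_iff₀ hhpos]
      rw [hlogP] at hv1
      have h4 : θ₁ / 2 * (2 / θ₁) ≤ θ₁ / 2 * Real.log Z := by gcongr
      have h5 : θ₁ / 2 * (2 / θ₁) = 1 := by field_simp
      have h6 : 1 ≤ θ₁ / 2 * Real.log Z := by linarith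
      nlinarith
    have hx2 : (v : ℝ) / h ≤ 1 / 4 * Real.log Z := by
      rw [div_le_iff₀ hhpos]
      rw [hlogQ] at hv2
      have : θ₂ * Real.log Z ≤ 1 / 4 * Real.log Z := by gcongr
      nlinarith
    refine u_class hC1 hC2 hC3 hc1 hc2 hθ₁ hVpos hl' hM hHM1 hHM2 (Cls P' Q' h v) f (bco P' Q' f s)
      hCM.2.2 (u_bco_norm P' Q' f s hCM.2.2) hZpos hLZ3 hLZθ hXl hXu hT1 hTX hU hUT hvol hx1 hx2 ?_ ?_ e5
    · intro p hp
      unfold Cls at hp
      rw [Finset.mem_filter] at hp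
      obtain ⟨hp1, hp2, hp3⟩ := hp
      unfold PrI at hp1
      rw [Finset.mem_filter] at hp1
      refine ⟨hp1.2, hp2, hp3.trans ?_⟩
      rw [← Real.exp_add]
      apply Real.exp_le_exp.2
      rw [add_div]
      have : 1 / h ≤ 1 := by rw [div_le_one hhpos]; exact hh
      linarith
    · intro t ht
      have ht' := hUT ht
      refine hS Z (X * Real.exp (-(v / h))) t e6 ?_ ?_ ?_
      · have hX9 : Real.exp (9 / 10 * Real.log Z) ≤ X := by
          have : Z ^ (9 / 10 : ℝ) = Real.exp (9 / 10 * Real.log Z) := by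
            rw [Real.rpow_def_of_pos hZpos, mul_comm]
          rwa [this] at hXl
        calc Z ^ (1 / 2 : ℝ) = Real.exp (1 / 2 * Real.log Z) := by
              rw [Real.rpow_def_of_pos hZpos, mul_comm]
          _ ≤ Real.exp (9 / 10 * Real.log Z + -(v / h)) := by
            apply Real.exp_le_exp.2; linarith
          _ = Real.exp (9 / 10 * Real.log Z) * Real.exp (-(v / h)) := Real.exp_add _ _
          _ ≤ X * Real.exp (-(v / h)) := by gcongr
      · have : Real.exp (-(v / h)) ≤ 1 := by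
          apply Real.exp_le_one_iff.2
          have : 0 ≤ (v : ℝ) / h := by positivity
          linarith
        nlinarith
      · rw [abs_le]
        constructor <;> linarith [ht'.1, ht'.2]
  have hcard : ((Vs P' Q' h).card : ℝ) ≤ h * Real.log Z := by
    refine (u_card_Vs P' Q' h (by linarith) hPQ.le (by linarith)).trans ?_
    rw [hlogP, hlogQ]
    have h3 : (θ₂ - θ₁) * Real.log Z ≤ 1 / 4 * Real.log Z := by
      gcongr; linarith
    nlinarith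
  -- pointwise bound
  have hpt : ∀ t, ‖DP (IocN X (2 * X)) (res (fun n => s n ∧ Hit P' Q' n) f) t‖ ^ 2 ≤
      2 * ‖E t‖ ^ 2 + 2 * ((Vs P' Q' h).card * ∑ v ∈ Vs P' Q' h, ‖DP (Cls P' Q' h v) f t *
        DP (IocN (X * Real.exp (-(v / h))) (2 * (X * Real.exp (-(v / h))))) (bco P' Q' f s) t‖ ^ 2) := by
    intro t
    rw [hEA t]
    have h3 := u_sum_sq (Vs P' Q' h) (fun v => DP (Cls P' Q' h v) f t *
        DP (IocN (X * Real.exp (-(v / h))) (2 * (X * Real.exp (-(v / h))))) (bco P' Q' f s) t)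
    set S := ∑ v ∈ Vs P' Q' h, DP (Cls P' Q' h v) f t *
        DP (IocN (X * Real.exp (-(v / h))) (2 * (X * Real.exp (-(v / h))))) (bco P' Q' f s) t
    have h4 : ‖S + E t‖ ^ 2 ≤ (‖S‖ + ‖E t‖) ^ 2 := by
      gcongr; exact norm_add_le _ _
    nlinarith [sq_nonneg (‖S‖ - ‖E t‖)]
  have hEc2 : Continuous fun t => ‖E t‖ ^ 2 := hEc.norm.pow 2
  have hvc : ∀ v, Continuous fun t => ‖DP (Cls P' Q' h v) f t *
        DP (IocN (X * Real.exp (-(v / h))) (2 * (X * Real.exp (-(v / h))))) (bco P' Q' f s) t‖ ^ 2 := fun v =>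
    (((u_DP_cont _ _).mul (u_DP_cont _ _)).norm).pow 2
  have hsc : Continuous fun t => ∑ v ∈ Vs P' Q' h, ‖DP (Cls P' Q' h v) f t *
        DP (IocN (X * Real.exp (-(v / h))) (2 * (X * Real.exp (-(v / h))))) (bco P' Q' f s) t‖ ^ 2 :=
    continuous_finsetSum _ fun v _ => hvc v
  have hAc : Continuous fun t => ‖DP (IocN X (2 * X)) (res (fun n => s n ∧ Hit P' Q' n) f) t‖ ^ 2 :=
    (u_DP_cont _ _).norm.pow 2
  have hLZpos : 0 < Real.log Z := by linarith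
  have hmain : ∫ t in U, ‖DP (IocN X (2 * X)) (res (fun n => s n ∧ Hit P' Q' n) f) t‖ ^ 2 ≤
      2 * (∫ t in U, ‖E t‖ ^ 2) + 2 * ((Vs P' Q' h).card * ∑ v ∈ Vs P' Q' h, ∫ t in U,
        ‖DP (Cls P' Q' h v) f t *
        DP (IocN (X * Real.exp (-(v / h))) (2 * (X * Real.exp (-(v / h))))) (bco P' Q' f s) t‖ ^ 2) := by
    calc ∫ t in U, ‖DP (IocN X (2 * X)) (res (fun n => s n ∧ Hit P' Q' n) f) t‖ ^ 2
        ≤ ∫ t in U, (2 * ‖E t‖ ^ 2 + 2 * ((Vs P' Q' h).card * ∑ v ∈ Vs P' Q' h, ‖DP (Cls P' Q' h v) f t *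
          DP (IocN (X * Real.exp (-(v / h))) (2 * (X * Real.exp (-(v / h))))) (bco P' Q' f s) t‖ ^ 2)) := by
          refine setIntegral_mono_on (u_int hUT hAc) (u_int hUT ?_) hU (fun t _ => hpt t)
          exact (continuous_const.mul hEc2).add (continuous_const.mul (continuous_const.mul hsc))
      _ = _ := by
          have i1 : IntegrableOn (fun t => 2 * ‖E t‖ ^ 2) U := u_int hUT (continuous_const.mul hEc2)
          have i2 : IntegrableOn (fun t => 2 * (((Vs P' Q' h).card : ℝ) * ∑ v ∈ Vs P' Q' h, ‖DP (Cls P' Q' h v) f t *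
            DP (IocN (X * Real.exp (-(v / h))) (2 * (X * Real.exp (-(v / h))))) (bco P' Q' f s) t‖ ^ 2)) U :=
            u_int hUT (continuous_const.mul (continuous_const.mul hsc))
          rw [integral_add i1 i2, integral_const_mul,
            integral_const_mul, integral_const_mul, integral_finsetSum _ (fun v _ => u_int hUT (hvc v))]
  refine hmain.trans ?_
  have hE2 : ∫ t in U, ‖E t‖ ^ 2 ≤ 2 * C0 / h + δ / 8 := by
    refine (u_le_int (by linarith) hUT hEc2 (fun t => by positivity)).trans (hEb.trans ?_)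
    have h3 : T / X + 1 ≤ 2 := by
      have : T / X ≤ 1 := by rw [div_le_one hXpos]; exact hTX
      linarith
    have h4 : 1 / P' ≤ δ / (32 * C0) := by
      rw [div_le_div_iff₀ (by linarith) (by positivity)]
      have : 32 * C0 / δ ≤ P' := by linarith
      rw [div_le_iff₀ hδ] at this
      linarith
    have h5 : 1 / X ≤ δ / (32 * C0) := by
      rw [div_le_div_iff₀ hXpos (by positivity)]
      have : 32 * C0 / δ ≤ X := by linarith
      rw [div_le_iff₀ hδ] at this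
      linarith
    calc C0 * (T / X + 1) * (1 / h + 1 / P' + 1 / X)
        ≤ C0 * 2 * (1 / h + δ / (32 * C0) + δ / (32 * C0)) := by gcongr
      _ = 2 * C0 / h + δ / 8 := by field_simp; ring
  have hsum : ((Vs P' Q' h).card : ℝ) * ∑ v ∈ Vs P' Q' h, ∫ t in U, ‖DP (Cls P' Q' h v) f t *
        DP (IocN (X * Real.exp (-(v / h))) (2 * (X * Real.exp (-(v / h))))) (bco P' Q' f s) t‖ ^ 2 ≤
      h ^ 2 * (2 * C1 * V ^ 2 + d ^ 2 * C4) := by
    have h3 := Finset.sum_le_card_nsmul (Vs P' Q' h) _ _ hclass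
    rw [nsmul_eq_mul] at h3
    set W := (2 * C1 * V ^ 2 + d ^ 2 * C4) with hW
    have hW0 : 0 ≤ W := by positivity
    calc _ ≤ ((Vs P' Q' h).card : ℝ) * (((Vs P' Q' h).card : ℝ) * (W / (Real.log Z) ^ 2)) := by gcongr
      _ ≤ (h * Real.log Z) * ((h * Real.log Z) * (W / (Real.log Z) ^ 2)) := by gcongr
      _ = h ^ 2 * W := by field_simp
  have hfin : h ^ 2 * (2 * C1 * V ^ 2 + d ^ 2 * C4) = δ / 4 := by
    rw [hV2, hd2]
    have hhpos : 0 < h := by linarith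
    field_simp
    ring
  rw [hfin] at hsum
  have hgoal : 2 * (2 * C0 / h + δ / 8) + 2 * (δ / 4) ≤ 4 * C0 / h + δ := by
    have : 2 * (2 * C0 / h) = 4 * C0 / h := by ring
    linarith
  linarith

end Pool.Agent.Helper40.MR
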